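import Pool.Agent.Lib.MP_7b99f3_ag.Const

/-!
Compositions of holomorphic maps `SG_k → X → SG_n` are constant when `k > 4`, `n ≥ 3` and
`dim X ≤ k - 3`.
-/

namespace Pool.Agent.Results.MP_7b99f3_ag.FactorConstant

open Polynomial Topology

/-- `p_z(T) = T^n + z_1 T^(n-1) + ⋯ + z_n`; the coordinate `z i`, `i : Fin n`, is `z_{i+1}`. -/
noncomputable def poly (n : ℕ) (z : Fin n → ℂ) : ℂ[X] :=
  X ^ n + ∑ i : Fin n, C (z i) * X ^ (n - 1 - (i : ℕ))

/-- `SG_n`: the points `z` of `ℂ^n` with `z_1 = 0` and `disc p_z = 1`. -/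
def SG (n : ℕ) : Set (Fin n → ℂ) :=
  {z | (∀ i : Fin n, (i : ℕ) = 0 → z i = 0) ∧ (poly n z).discr = 1}

/-- `f` is holomorphic on the subset `A` of `ℂ^m`: near every point of `A` it is the restriction
to `A` of a holomorphic map of the ambient space. -/
def HolOn {m N : ℕ} (A : Set (Fin m → ℂ)) (f : (Fin m → ℂ) → (Fin N → ℂ)) : Prop :=
  ∀ a ∈ A, ∃ F : (Fin m → ℂ) → (Fin N → ℂ), AnalyticAt ℂ F a ∧ f =ᶠ[𝓝[A] a] F

/-- The Zariski tangent space at `x` of the algebraic set `X`: the vectors killed by the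
differentials at `x` of all polynomials vanishing on `X`. -/
noncomputable def tangent {N : ℕ} (X : Set (Fin N → ℂ)) (x : Fin N → ℂ) :
    Submodule ℂ (Fin N → ℂ) where
  carrier := {v | ∀ p : MvPolynomial (Fin N) ℂ, (∀ y ∈ X, MvPolynomial.eval y p = 0) →
    ∑ i, MvPolynomial.eval x (MvPolynomial.pderiv i p) * v i = 0}
  add_mem' := by
    intro a b ha hb p hp
    simp only [Pi.add_apply, mul_add, Finset.sum_add_distrib]
    rw [ha p hp, hb p hp, add_zero]
  zero_mem' := by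
    intro p _
    simp
  smul_mem' := by
    intro c a ha p hp
    simp only [Pi.smul_apply, smul_eq_mul]
    have h : ∀ i, MvPolynomial.eval x (MvPolynomial.pderiv i p) * (c * a i) =
        c * (MvPolynomial.eval x (MvPolynomial.pderiv i p) * a i) := fun i => by ring
    simp_rw [h]
    rw [← Finset.mul_sum, ha p hp, mul_zero]

/-- `X` is a connected non-singular affine algebraic variety of dimension `l`, closed in `ℂ^N`:
it is the zero set of a set of polynomials, it is connected, and all its Zariski tangent spaces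
have dimension `l`. -/
def IsAffineManifold {N : ℕ} (l : ℕ) (X : Set (Fin N → ℂ)) : Prop :=
  (∃ S : Set (MvPolynomial (Fin N) ℂ), X = {x | ∀ p ∈ S, MvPolynomial.eval x p = 0}) ∧
    IsConnected X ∧ ∀ x ∈ X, Module.finrank ℂ (tangent X x) = l

open Pool.Agent.Lib.MP_7b99f3_ag

theorem poly_eq (n : ℕ) (z : Fin n → ℂ) : poly n z = monicPoly n z := rfl

/-- every coefficient vector is the image of an ordering of its roots -/
theorem exists_roots {n : ℕ} (z : Fin n → ℂ) : ∃ μ : Fin n → ℂ, vieta μ = z := by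
  set f := monicPoly n z with hf
  have hdeg : f.natDegree = n := by
    refine le_antisymm (monicPoly_natDegree_le z) ?_
    refine le_natDegree_of_ne_zero ?_
    rw [hf, monicPoly_coeff_n]; exact one_ne_zero
  have hmon : f.Monic := by
    unfold Polynomial.Monic Polynomial.leadingCoeff
    rw [hdeg, hf, monicPoly_coeff_n]
  have hsp : f.Splits := IsAlgClosed.splits f
  have hprod := hsp.eq_prod_roots_of_monic hmon
  have hcard : f.roots.card = n := by rw [IsAlgClosed.card_roots_eq_natDegree, hdeg]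
  set L := f.roots.toList with hL
  have hLl : L.length = n := by rw [hL, Multiset.length_toList, hcard]
  refine ⟨fun i => L[(i : ℕ)]'(by rw [hLl]; exact i.2), ?_⟩
  apply monicPoly_injective
  rw [monicPoly_vieta, ← hf, hprod]
  have h1 : (Multiset.map (fun a => X - C a) f.roots).prod =
      (L.map fun a => X - C a).prod := by
    rw [← Multiset.coe_toList f.roots, Multiset.map_coe, Multiset.prod_coe]
  rw [h1]
  have h2 := Fin.prod_univ_fun_getElem L (fun a : ℂ => (X - C a : ℂ[X]))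
  rw [← h2]
  exact (Fin.castOrderIso hLl.symm).toEquiv.prod_comp
    (fun i : Fin L.length => (X - C (L[(i : ℕ)]) : ℂ[X]))

theorem vieta_zero {n : ℕ} (μ : Fin n → ℂ) (i : Fin n) (hi : (i : ℕ) = 0) :
    vieta μ i = - ∑ j, μ j := by
  unfold vieta
  rw [hi]
  simp [Finset.powersetCard_one]

theorem mem_SG_of_isN {n : ℕ} (hn : 0 < n) {μ : Fin n → ℂ} (h : IsN μ) : vieta μ ∈ SG n := by
  refine ⟨fun i hi => ?_, ?_⟩
  · rw [vieta_zero μ i hi, h.1, neg_zero]
  · rw [poly_eq, discr_monicPoly_vieta hn, h.2]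

theorem exists_isN_of_mem {n : ℕ} (hn : 0 < n) {z : Fin n → ℂ} (hz : z ∈ SG n) :
    ∃ μ : Fin n → ℂ, IsN μ ∧ vieta μ = z := by
  obtain ⟨μ, rfl⟩ := exists_roots z
  refine ⟨μ, ⟨?_, ?_⟩, rfl⟩
  · have := hz.1 ⟨0, hn⟩ rfl
    rw [vieta_zero μ _ rfl] at this
    exact neg_eq_zero.mp this
  · rw [← discr_monicPoly_vieta hn, ← poly_eq]
    exact hz.2

theorem hasFDerivAt_eval {N : ℕ} (p : MvPolynomial (Fin N) ℂ) (x : Fin N → ℂ) :
    ∃ L : (Fin N → ℂ) →L[ℂ] ℂ, HasFDerivAt (fun y : Fin N → ℂ => MvPolynomial.eval y p) L x ∧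
      ∀ v, L v = ∑ i, MvPolynomial.eval x (MvPolynomial.pderiv i p) * v i := by
  induction p using MvPolynomial.induction_on with
  | C a =>
    have h0 : (fun y : Fin N → ℂ => MvPolynomial.eval y (MvPolynomial.C a)) = fun _ => a := by
      funext y; simp
    rw [h0]
    exact ⟨0, hasFDerivAt_const a x, fun v => by simp⟩
  | add p q hp hq =>
    obtain ⟨Lp, hp, hp'⟩ := hp
    obtain ⟨Lq, hq, hq'⟩ := hq
    have h0 : (fun y : Fin N → ℂ => MvPolynomial.eval y (p + q)) =
        fun y => MvPolynomial.eval y p + MvPolynomial.eval y q := by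
      funext y; simp
    rw [h0]
    refine ⟨Lp + Lq, hp.add hq, fun v => ?_⟩
    rw [add_apply, hp', hq', ← Finset.sum_add_distrib]
    refine Finset.sum_congr rfl fun i _ => ?_
    rw [map_add, map_add]; ring
  | mul_X p j hp =>
    obtain ⟨Lp, hp, hp'⟩ := hp
    have h1 : HasFDerivAt (fun y : Fin N → ℂ => y j)
        (ContinuousLinearMap.proj (R := ℂ) (φ := fun _ : Fin N => ℂ) j) x :=
      (ContinuousLinearMap.proj (R := ℂ) (φ := fun _ : Fin N => ℂ) j).hasFDerivAt
    have h0 : (fun y : Fin N → ℂ => MvPolynomial.eval y (p * MvPolynomial.X j)) =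
        fun y => MvPolynomial.eval y p * y j := by
      funext y; simp
    rw [h0]
    refine ⟨_, hp.mul h1, fun v => ?_⟩
    have h3 : ∀ i, MvPolynomial.eval x (MvPolynomial.pderiv i (p * MvPolynomial.X j)) * v i =
        (if i = j then MvPolynomial.eval x p * v j else 0) +
          x j * (MvPolynomial.eval x (MvPolynomial.pderiv i p) * v i) := by
      intro i
      rw [Derivation.leibniz, MvPolynomial.pderiv_X]
      by_cases hij : i = j
      · subst hij
        simp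
        ring
      · have : (Pi.single i (1 : MvPolynomial (Fin N) ℂ) : Fin N → MvPolynomial (Fin N) ℂ) j = 0 :=
          by rw [Pi.single_apply, if_neg (fun h => hij h.symm)]
        simp only [smul_eq_mul, map_add, map_mul, MvPolynomial.eval_X, this, mul_zero, map_zero,
          if_neg hij]
        ring
    simp_rw [h3]
    rw [Finset.sum_add_distrib, Finset.sum_ite_eq', if_pos (Finset.mem_univ j),
      ← Finset.mul_sum, ← hp']
    simp

/-- the datum attached to the composition -/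
noncomputable def datum {k n N : ℕ} (hk : 0 < k) (hn : 0 < n) {X : Set (Fin N → ℂ)}
    {f₁ : (Fin k → ℂ) → (Fin N → ℂ)} {f₂ : (Fin N → ℂ) → (Fin n → ℂ)} (h1 : HolOn (SG k) f₁)
    (h1' : Set.MapsTo f₁ (SG k) X) (h2 : HolOn X f₂) (h2' : Set.MapsTo f₂ X (SG n)) :
    Datum k n where
  G := fun y => f₂ (f₁ (vieta y))
  symm := fun y σ _ => by rw [vieta_comp_perm]
  lift := fun y hy => exists_isN_of_mem hn (h2' (h1' (mem_SG_of_isN hk hy)))
  hol := by
    intro y hy
    have hz := mem_SG_of_isN hk hy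
    obtain ⟨F₁, hF₁, e₁⟩ := h1 _ hz
    obtain ⟨F₂, hF₂, e₂⟩ := h2 _ (h1' hz)
    have hval : f₁ (vieta y) = F₁ (vieta y) := e₁.self_of_nhdsWithin hz
    have hv : AnalyticAt ℂ (vieta (n := k)) y := by
      exact (contDiff_vieta (n := k)).contDiffAt.analyticAt
    refine ⟨fun y => F₂ (F₁ (vieta y)), ?_, ?_⟩
    · rw [hval] at hF₂
      exact AnalyticAt.fun_comp hF₂ (AnalyticAt.fun_comp hF₁ hv)
    · have t1 : Filter.Tendsto (vieta (n := k)) (𝓝[{y | IsN y}] y) (𝓝[SG k] (vieta y)) := by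
        rw [tendsto_nhdsWithin_iff]
        refine ⟨continuous_vieta.continuousAt.continuousWithinAt, ?_⟩
        filter_upwards [self_mem_nhdsWithin] with y' hy'
        exact mem_SG_of_isN hk hy'
      have t2 : Filter.Tendsto f₁ (𝓝[SG k] (vieta y)) (𝓝[X] (f₁ (vieta y))) := by
        rw [tendsto_nhdsWithin_iff]
        constructor
        · have h3 : Filter.Tendsto F₁ (𝓝[SG k] (vieta y)) (𝓝 (F₁ (vieta y))) :=
            hF₁.continuousAt.continuousWithinAt
          rw [hval]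
          exact h3.congr' e₁.symm
        · filter_upwards [self_mem_nhdsWithin] with z hz' using h1' hz'
      filter_upwards [t1.eventually e₁, (t2.comp t1).eventually e₂] with y' a1 a2
      simp only [Function.comp_apply] at a2
      rw [a2, a1]

theorem datum_rk {k n N l : ℕ} (hk : 4 < k) (hn : 0 < n) {X : Set (Fin N → ℂ)}
    {f₁ : (Fin k → ℂ) → (Fin N → ℂ)} {f₂ : (Fin N → ℂ) → (Fin n → ℂ)} (h1 : HolOn (SG k) f₁)
    (h1' : Set.MapsTo f₁ (SG k) X) (h2 : HolOn X f₂) (h2' : Set.MapsTo f₂ X (SG n))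
    (hl : l ≤ k - 3) (hdim : ∀ x ∈ X, Module.finrank ℂ (tangent X x) = l) :
    (datum (by omega : 0 < k) hn h1 h1' h2 h2').Rk := by
  intro Y w hY hN
  have hNw : IsN (Y w) := hN.self_of_nhds
  have hz := mem_SG_of_isN (by omega : 0 < k) hNw
  obtain ⟨F₁, hF₁, e₁⟩ := h1 _ hz
  obtain ⟨F₂, hF₂, e₂⟩ := h2 _ (h1' hz)
  have hval : f₁ (vieta (Y w)) = F₁ (vieta (Y w)) := e₁.self_of_nhdsWithin hz
  -- the map into `X`
  set Φ : (Fin (k - 2) → ℂ) → (Fin N → ℂ) := fun w' => F₁ (vieta (Y w')) with hΦ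
  have hΦd : DifferentiableAt ℂ Φ w :=
    hF₁.differentiableAt.comp w
      (((contDiff_vieta (n := k)).contDiffAt.differentiableAt (by simp)).comp w hY)
  have t1 : Filter.Tendsto (fun w' => vieta (Y w')) (𝓝 w) (𝓝[SG k] (vieta (Y w))) := by
    rw [tendsto_nhdsWithin_iff]
    refine ⟨continuous_vieta.continuousAt.comp hY.continuousAt, ?_⟩
    filter_upwards [hN] with w' hw'
    exact mem_SG_of_isN (by omega) hw'
  have hΦe : ∀ᶠ w' in 𝓝 w, f₁ (vieta (Y w')) = Φ w' := t1.eventually e₁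
  have hΦX : ∀ᶠ w' in 𝓝 w, Φ w' ∈ X := by
    filter_upwards [hΦe, hN] with w' a1 a2
    rw [← a1]
    exact h1' (mem_SG_of_isN (by omega) a2)
  have hrange : ∀ v, fderiv ℂ Φ w v ∈ tangent X (Φ w) := by
    intro v p hp
    obtain ⟨L, hL, hL'⟩ := hasFDerivAt_eval p (Φ w)
    have h3 : HasFDerivAt (fun w' => MvPolynomial.eval (Φ w') p) (L.comp (fderiv ℂ Φ w)) w :=
      hL.comp w hΦd.hasFDerivAt
    have h4 : (fun w' => MvPolynomial.eval (Φ w') p) =ᶠ[𝓝 w] fun _ => 0 := by
      filter_upwards [hΦX] with w' hw' using hp _ hw'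
    have h5 : HasFDerivAt (fun w' => MvPolynomial.eval (Φ w') p)
        (0 : (Fin (k - 2) → ℂ) →L[ℂ] ℂ) w :=
      (hasFDerivAt_const (0 : ℂ) w).congr_of_eventuallyEq h4
    have h6 := congrArg (fun T => T v) (h3.unique h5)
    simp only [ContinuousLinearMap.comp_apply] at h6
    rw [hL'] at h6
    simpa using h6
  have hXw : Φ w ∈ X := hΦX.self_of_nhds
  obtain ⟨v, hv0, hv⟩ : ∃ v, v ≠ 0 ∧ fderiv ℂ Φ w v = 0 := by
    set T : (Fin (k - 2) → ℂ) →ₗ[ℂ] tangent X (Φ w) :=
      LinearMap.codRestrict (tangent X (Φ w)) (fderiv ℂ Φ w : _ →ₗ[ℂ] _) hrange with hT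
    have h7 : ¬ Function.Injective T := by
      intro hinj
      have h8 := LinearMap.finrank_le_finrank_of_injective hinj
      rw [hdim _ hXw, Module.finrank_fintype_fun_eq_card, Fintype.card_fin] at h8
      omega
    rw [injective_iff_map_eq_zero] at h7
    push Not at h7
    obtain ⟨v, hv, hv0⟩ := h7
    refine ⟨v, hv0, ?_⟩
    have := congrArg Subtype.val hv
    simpa [hT] using this
  refine ⟨v, hv0, ?_⟩
  have t2 : Filter.Tendsto Φ (𝓝 w) (𝓝[X] (f₁ (vieta (Y w)))) := by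
    rw [tendsto_nhdsWithin_iff, hval]
    exact ⟨hΦd.continuousAt, hΦX⟩
  have hG : (fun w' => (datum (by omega : 0 < k) hn h1 h1' h2 h2').G (Y w')) =ᶠ[𝓝 w]
      fun w' => F₂ (Φ w') := by
    filter_upwards [hΦe, t2.eventually e₂] with w' a1 a2
    simp only [datum]
    rw [a1, a2]
  rw [hG.fderiv_eq]
  rw [hval] at hF₂
  have h9 : HasFDerivAt (fun w' => F₂ (Φ w')) ((fderiv ℂ F₂ (Φ w)).comp (fderiv ℂ Φ w)) w :=
    hF₂.differentiableAt.hasFDerivAt.comp w hΦd.hasFDerivAt
  rw [h9.fderiv, ContinuousLinearMap.comp_apply, hv, map_zero]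

/-- For `k > 4`, `n ≥ 3` and `l ≤ k - 3`: for every connected non-singular affine algebraic
variety `X` of dimension `l` and all holomorphic maps `f₁ : SG_k → X`, `f₂ : X → SG_n`, the
composition `f₂ ∘ f₁ : SG_k → SG_n` is constant. -/
theorem result : ∀ k n l : ℕ, 4 < k → 3 ≤ n → l ≤ k - 3 →
    ∀ (N : ℕ) (X : Set (Fin N → ℂ)), IsAffineManifold l X →
    ∀ (f₁ : (Fin k → ℂ) → (Fin N → ℂ)) (f₂ : (Fin N → ℂ) → (Fin n → ℂ)),
    HolOn (SG k) f₁ → Set.MapsTo f₁ (SG k) X → HolOn X f₂ → Set.MapsTo f₂ X (SG n) →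
    ∃ c : Fin n → ℂ, ∀ z ∈ SG k, f₂ (f₁ z) = c := by
  intro k n l hk hn hl N X hX f₁ f₂ h1 h1' h2 h2'
  have hk0 : 0 < k := by omega
  have hn0 : 0 < n := by omega
  have hRk := datum_rk hk hn0 h1 h1' h2 h2' hl hX.2.2
  by_cases hne : (SG k).Nonempty
  · obtain ⟨z₀, hz₀⟩ := hne
    obtain ⟨μ₀, hμ₀, rfl⟩ := exists_isN_of_mem hk0 hz₀
    refine ⟨f₂ (f₁ (vieta μ₀)), fun z hz => ?_⟩
    obtain ⟨μ, hμ, rfl⟩ := exists_isN_of_mem hk0 hz
    exact Datum.const (by omega) (by omega) hRk hμ hμ₀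
  · exact ⟨0, fun z hz => absurd ⟨z, hz⟩ hne⟩

end Pool.Agent.Results.MP_7b99f3_ag.FactorConstant
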